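import Pool.Agent.Helper77.Pq.DDa

/-!
# MP_705522_gt: the scalar inequality (D)
-/

set_option autoImplicit false

namespace Pool.Agent.Helper77.Pq

open Pool.Agent.Helper53.Pq Pool.Agent.Helper28.NO

/-- The second term. -/
theorem second_term {u e W Y c v R S : ℝ} (hu : 0 < u) (he : 0 < e) (hW : 0 < W)
    (hc : 0 < c) (hu2 : u ^ 2 = S / 2) :
    1 / 2 * (Y * e / W) * ((1 + v) * R / (2 * (4 * (u * e / W) * c)) -
      3 * (1 + v) ^ 2 * R ^ 2 / (32 * (4 * (u * e / W) * c) ^ 3)) =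
    Y * (1 + v) * R / (16 * u * c) *
      (1 - 3 / 128 * (1 + v) / c ^ 2 * (R / S) * W ^ 2 / e ^ 2) := by
  have h1 : S = 2 * u ^ 2 := by rw [hu2]; ring
  rw [h1]
  field_simp
  ring

/-- `a ^ q` in the new variables. -/
theorem pow_eq {a S x m : ℝ} (ha : 0 < a) (hS : 0 < S) (hx : 0 < x) (h : a ^ 2 = S / 2 * x) :
    a ^ (2 * m) = (S / 2) ^ m * x ^ m := by
  rw [Real.rpow_mul ha.le, Real.rpow_two, h, Real.mul_rpow (by positivity) hx.le]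

theorem half_pow {S s : ℝ} (hS : 0 < S) (hs : 0 ≤ s) :
    ((S / 2) ^ (s + 2)) ^ (1 / (2 * (s + 2))) = √(S / 2) := by
  rw [← Real.rpow_mul (by positivity), Real.sqrt_eq_rpow]
  congr 1
  field_simp

/-- `Z`. -/
noncomputable def ZZ (s d : ℝ) : ℝ := ((1 + d) ^ (s + 2) + (1 - d) ^ (s + 2)) / 2

theorem ZZ_pos {s d : ℝ} (hd0 : 0 ≤ d) (hd1 : d < 1) : 0 < ZZ s d := by
  have h1 : 0 < (1 + d) ^ (s + 2) := Real.rpow_pos_of_pos (by linarith) _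
  have h2 : 0 < (1 - d) ^ (s + 2) := Real.rpow_pos_of_pos (by linarith) _
  unfold ZZ
  linarith

section

variable {s d S a b : ℝ}

theorem sum_eq (ha : 0 < a) (hb : 0 < b) (hS : 0 < S) (hd0 : 0 ≤ d) (hd1 : d < 1)
    (ha2 : a ^ 2 = S / 2 * (1 + d)) (hb2 : b ^ 2 = S / 2 * (1 - d)) :
    a ^ (2 * (s + 2)) + b ^ (2 * (s + 2)) = 2 * ((S / 2) ^ (s + 2) * ZZ s d) := by
  rw [pow_eq ha hS (by linarith) ha2, pow_eq hb hS (by linarith) hb2]
  unfold ZZ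
  ring

theorem first_eq (ha : 0 < a) (hb : 0 < b) (hS : 0 < S) (hs : 0 ≤ s) (hd0 : 0 ≤ d) (hd1 : d < 1)
    (ha2 : a ^ 2 = S / 2 * (1 + d)) (hb2 : b ^ 2 = S / 2 * (1 - d)) :
    (a ^ (2 * (s + 2)) + b ^ (2 * (s + 2))) ^ (1 / (2 * (s + 2))) =
      (2 : ℝ) ^ (1 / (2 * (s + 2))) * (√(S / 2) * ZZ s d ^ (1 / (2 * (s + 2)))) := by
  have hZ := ZZ_pos (s := s) hd0 hd1
  have hP : 0 < (S / 2) ^ (s + 2) := Real.rpow_pos_of_pos (by positivity) _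
  rw [sum_eq ha hb hS hd0 hd1 ha2 hb2, Real.mul_rpow (by norm_num) (by positivity),
    Real.mul_rpow hP.le hZ.le, half_pow hS hs]

theorem hm_eq (ha : 0 < a) (hb : 0 < b) (hS : 0 < S) (hs : 0 ≤ s) (hd0 : 0 ≤ d) (hd1 : d < 1)
    (ha2 : a ^ 2 = S / 2 * (1 + d)) (hb2 : b ^ 2 = S / 2 * (1 - d)) :
    hm (2 * (s + 2)) a b = a * b / (√(S / 2) * ZZ s d ^ (1 / (2 * (s + 2)))) := by
  have hZ := ZZ_pos (s := s) hd0 hd1
  have hP : 0 < (S / 2) ^ (s + 2) := Real.rpow_pos_of_pos (by positivity) _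
  have hq : (2 * (s + 2)) ≠ 0 := by positivity
  have hx : 0 < a ^ (2 * (s + 2)) := Real.rpow_pos_of_pos ha _
  have hy : 0 < b ^ (2 * (s + 2)) := Real.rpow_pos_of_pos hb _
  have h1 : (a ^ (2 * (s + 2)))⁻¹ + (b ^ (2 * (s + 2)))⁻¹ =
      (a ^ (2 * (s + 2)) + b ^ (2 * (s + 2))) / (a ^ (2 * (s + 2)) * b ^ (2 * (s + 2))) := by
    field_simp
    ring
  have h2 : ((a ^ (2 * (s + 2)) + b ^ (2 * (s + 2))) /
      (a ^ (2 * (s + 2)) * b ^ (2 * (s + 2)))) / 2 =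
      ((S / 2) ^ (s + 2) * ZZ s d) / (a ^ (2 * (s + 2)) * b ^ (2 * (s + 2))) := by
    rw [sum_eq ha hb hS hd0 hd1 ha2 hb2]
    ring
  have h3 : ∀ x : ℝ, 0 < x → (x ^ (2 * (s + 2))) ^ (1 / (2 * (s + 2))) = x := by
    intro x hx
    rw [← Real.rpow_mul hx.le, mul_one_div_cancel hq, Real.rpow_one]
  unfold hm
  rw [Real.rpow_neg ha.le, Real.rpow_neg hb.le, h1, h2, Real.rpow_neg (by positivity),
    Real.div_rpow (by positivity) (by positivity), Real.mul_rpow hP.le hZ.le, half_pow hS hs,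
    Real.mul_rpow hx.le hy.le, h3 a ha, h3 b hb, inv_div]

theorem ab_eq (ha : 0 < a) (hb : 0 < b) (hS : 0 < S)
    (ha2 : a ^ 2 = S / 2 * (1 + d)) (hb2 : b ^ 2 = S / 2 * (1 - d)) :
    a * b = √(S / 2) ^ 2 * √(1 - d ^ 2) := by
  rw [Real.sq_sqrt (by positivity)]
  have h1 : (a * b) ^ 2 = (S / 2) ^ 2 * (1 - d ^ 2) := by
    rw [mul_pow, ha2, hb2]; ring
  have h2 : a * b = √((a * b) ^ 2) := (Real.sqrt_sq (by positivity)).symm
  rw [h2, h1, Real.sqrt_mul (sq_nonneg _), Real.sqrt_sq (by positivity)]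

theorem Kf_eq (ha : 0 < a) (hb : 0 < b) (hS : 0 < S) (hs : 0 ≤ s) (hd0 : 0 ≤ d) (hd1 : d < 1)
    (ha2 : a ^ 2 = S / 2 * (1 + d)) (hb2 : b ^ 2 = S / 2 * (1 - d)) :
    Kf (1 / (2 * (s + 2))) a b =
      (1 - d ^ 2) ^ (s + 1) / ZZ s d ^ (2 - 3 * (1 / (2 * (s + 2)))) * √(1 - d ^ 2) /
        ZZ s d ^ (1 / (2 * (s + 2))) := by
  have hZ := ZZ_pos (s := s) hd0 hd1
  have hD : 0 < 1 - d ^ 2 := by nlinarith
  have he : 0 < √(1 - d ^ 2) := Real.sqrt_pos.mpr hD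
  have hu : 0 < √(S / 2) := Real.sqrt_pos.mpr (by positivity)
  obtain ⟨W, hW⟩ : ∃ W : ℝ, W = ZZ s d ^ (1 / (2 * (s + 2))) := ⟨_, rfl⟩
  have hW0 : 0 < W := by rw [hW]; exact Real.rpow_pos_of_pos hZ _
  unfold Kf
  rw [one_div_one_div, hm_eq ha hb hS hs hd0 hd1 ha2 hb2, ← hW,
    ab_eq ha hb hS ha2 hb2]
  have h1 : (√(S / 2) ^ 2 * √(1 - d ^ 2) / (√(S / 2) * W)) ^ 2 /
      (√(S / 2) ^ 2 * √(1 - d ^ 2)) = √(1 - d ^ 2) / W ^ 2 := by
    field_simp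
  rw [h1, Real.div_rpow he.le (by positivity)]
  have h2 : √(1 - d ^ 2) ^ (2 * (s + 2) - 1) = (1 - d ^ 2) ^ (s + 1) * √(1 - d ^ 2) := by
    rw [Real.sqrt_eq_rpow, ← Real.rpow_mul hD.le, ← Real.rpow_add hD]
    congr 1
    ring
  have h3 : (W ^ 2) ^ (2 * (s + 2) - 1) = ZZ s d ^ (2 - 3 * (1 / (2 * (s + 2)))) * W := by
    rw [hW, ← Real.rpow_two, ← Real.rpow_mul hZ.le, ← Real.rpow_mul hZ.le, ← Real.rpow_add hZ]
    congr 1
    field_simp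
    ring
  rw [h2, h3]
  field_simp

end

theorem two_half : (2 : ℝ) ^ (-(1 / 2) : ℝ) ≤ 0.7072 := by
  rw [Real.rpow_neg (by norm_num), ← Real.sqrt_eq_rpow]
  have h1 : (1.4141 : ℝ) ≤ √2 := Real.le_sqrt_of_sq_le (by norm_num)
  have h2 : (√2)⁻¹ ≤ (1.4141 : ℝ)⁻¹ := inv_anti₀ (by norm_num) h1
  exact h2.trans (by norm_num)

/-- The scalar inequality (D). -/
theorem gD : GD := by
  intro hN θ a b R hθ0 hθ1 hb hba hR hsum ha1 ha2 hb1 hne
  have ha : 0 < a := lt_of_lt_of_le hb hba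
  have hθp : 0 < θ := by linarith
  obtain ⟨s, hs⟩ : ∃ s : ℝ, s = 1 / (2 * θ) - 2 := ⟨_, rfl⟩
  have hs0 : 0 ≤ s := by
    rw [hs, sub_nonneg, le_div_iff₀ (by positivity)]; linarith
  have hs1 : s ≤ 1 := by
    have h1 : 1 / (2 * θ) ≤ 3 := by
      rw [div_le_iff₀ (by positivity)]; linarith
    rw [hs]; linarith
  have hθs : θ = 1 / (2 * (s + 2)) := by
    rw [hs, sub_add_cancel]
    field_simp
  have hθ12 : (2 : ℝ) ^ (2 * θ - 1) ≤ 0.7072 :=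
    (Real.rpow_le_rpow_of_exponent_le (by norm_num) (by linarith)).trans two_half
  -- the new variables
  obtain ⟨S, hS⟩ : ∃ S : ℝ, S = a ^ 2 + b ^ 2 := ⟨_, rfl⟩
  have hS0 : 0 < S := by rw [hS]; positivity
  have hSR : S = 1 - R := by rw [hS]; linarith
  obtain ⟨d, hd⟩ : ∃ d : ℝ, d * S = a ^ 2 - b ^ 2 := ⟨_, div_mul_cancel₀ _ hS0.ne'⟩
  have ha2' : a ^ 2 = S / 2 * (1 + d) := by
    have : d * S + S = 2 * a ^ 2 := by rw [hd, hS]; ring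
    linarith
  have hb2' : b ^ 2 = S / 2 * (1 - d) := by
    have : S - d * S = 2 * b ^ 2 := by rw [hd, hS]; ring
    linarith
  have hbp : 0 < b ^ 2 := by positivity
  have hab2 : b ^ 2 ≤ a ^ 2 := pow_le_pow_left₀ hb.le hba 2
  have hd0 : 0 ≤ d := by
    by_contra hc
    push Not at hc
    have := mul_neg_of_neg_of_pos hc hS0
    linarith
  have hd1 : d < 1 := by
    by_contra hc
    push Not at hc
    have : S / 2 * (1 - d) ≤ 0 := mul_nonpos_of_nonneg_of_nonpos (by linarith) (by linarith)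
    linarith
  have hd2 : d ≤ 29 / 50 := by
    by_contra hc
    push Not at hc
    have e1 : b ^ 2 * (1 + d) = a ^ 2 * (1 - d) := by rw [ha2', hb2']; ring
    have h1 : b ^ 2 * (79 / 50) ≤ b ^ 2 * (1 + d) :=
      mul_le_mul_of_nonneg_left (by linarith) hbp.le
    have h2 : a ^ 2 * (1 - d) ≤ a ^ 2 * (21 / 50) :=
      mul_le_mul_of_nonneg_left (by linarith) (sq_nonneg a)
    linarith
  have hρ1 : R ≤ d * S := by linarith
  have hρ2 : R ≤ 7 / 26 * (1 - d) * S := by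
    have h1 : 0.65 * (b ^ 2 + R) ≤ b ^ 2 := by
      have : b ^ 2 + R = 1 - a ^ 2 := by linarith
      rw [this]; exact hb1
    rw [hb2'] at h1
    linarith
  have hu : 0 < √(S / 2) := Real.sqrt_pos.mpr (by positivity)
  have hu2 : √(S / 2) ^ 2 = S / 2 := Real.sq_sqrt (by positivity)
  have hZ := ZZ_pos (s := s) hd0 hd1
  obtain ⟨hZ1, hZ2⟩ := Z_bounds hs0 hs1 hd0 hd1
  have hWl := W_lower hs0 hs1 hd0 hd1 hZ2
  have hWu := W_upper hs0 hs1 hZ hZ1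
  have hY := Y_lower hs0 hs1 hd0 hd1 hZ hZ1
  have hfirst := first_eq ha hb hS0 hs0 hd0 hd1 ha2' hb2'
  have hsq2 : √2 * √(S / 2) = √S := by
    rw [← Real.sqrt_mul (by norm_num)]
    congr 1
    ring
  have ht : (2 : ℝ) ^ (θ - 1 / 2) = (2 : ℝ) ^ θ / √2 := by
    rw [Real.rpow_sub (by norm_num), Real.sqrt_eq_rpow]
  have hs2 : 0 < √(2 : ℝ) := Real.sqrt_pos.mpr (by norm_num)
  have hs2' : √(2 : ℝ) ^ 2 = 2 := Real.sq_sqrt (by norm_num)
  have ht0 : 0 < (2 : ℝ) ^ θ := Real.rpow_pos_of_pos (by norm_num) _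
  rcases hR.eq_or_lt with hR0 | hR0
  · -- `R = 0`
    have hdp : 0 < d := by
      rcases hd0.eq_or_lt with h | h
      · exfalso
        refine hne ⟨hR0.symm, ?_⟩
        have h1 : a ^ 2 = b ^ 2 := by rw [← h] at hd; linarith
        exact (pow_left_inj₀ ha.le hb.le two_ne_zero).mp h1
      · exact h
    have hW1 : 1 < ZZ s d ^ (1 / (2 * (s + 2))) := by
      refine lt_of_lt_of_le ?_ hWl
      have h0 : d ^ 2 ≤ 1 := pow_le_one₀ hd0 hd1.le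
      have h1 : 0 < 1 + s + s ^ 2 - (1 - s) * d ^ 2 := by
        have h3 : (1 - s) * d ^ 2 ≤ (1 - s) * 1 := mul_le_mul_of_nonneg_left h0 (by linarith)
        rcases hs0.eq_or_lt with h4 | h4
        · rw [← h4]
          have h5 : d ^ 2 < 1 := pow_lt_one₀ hd0 hd1 two_ne_zero
          linarith
        · have h5 : 0 < s ^ 2 := by positivity
          linarith
      have h2 : 0 < d ^ 2 * (1 + s + s ^ 2 - (1 - s) * d ^ 2) /
        (2 * (s + 2) + (2 * s + 3) * (1 + s + s ^ 2) * d ^ 2) := by positivity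
      linarith
    rw [← hR0] at hSR
    rw [← hR0, ht]
    have e1 : (a ^ (1 / θ) + b ^ (1 / θ)) ^ θ =
        (2 : ℝ) ^ θ * (√(S / 2) * ZZ s d ^ (1 / (2 * (s + 2)))) := by
      have h1 : 1 / θ = 2 * (s + 2) := by rw [hθs, one_div_one_div]
      rw [h1]
      nth_rewrite 1 [hθs]
      rw [hfirst, ← hθs]
    have e2 : √(S / 2) = 1 / √2 := by
      rw [hSR, sub_zero, Real.sqrt_div (by norm_num), Real.sqrt_one]
    rw [e1, e2]
    have e3 : (1 : ℝ) / 2 * Kf θ a b * ((1 + vv θ) * 0 / (2 * Lg θ a b) -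
        3 * (1 + vv θ) ^ 2 * 0 ^ 2 / (32 * Lg θ a b ^ 3)) = 0 := by ring
    rw [e3, add_zero, div_eq_mul_one_div]
    refine mul_lt_mul_of_pos_left ?_ ht0
    exact lt_mul_of_one_lt_right (by positivity) hW1
  · -- `R > 0`
    have hdp : 0 < d := by
      by_contra hc
      push Not at hc
      have := mul_nonpos_of_nonpos_of_nonneg hc hS0.le
      linarith
    have hD : 0 < 1 - d ^ 2 := by
      have h1 : 0 < (1 - d) * (1 + d) := mul_pos (by linarith) (by linarith)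
      have h2 : (1 - d) * (1 + d) = 1 - d ^ 2 := by ring
      linarith
    have he : 0 < √(1 - d ^ 2) := Real.sqrt_pos.mpr hD
    have he2 : √(1 - d ^ 2) ^ 2 = 1 - d ^ 2 := Real.sq_sqrt hD.le
    have hW0 : 0 < ZZ s d ^ (1 / (2 * (s + 2))) := Real.rpow_pos_of_pos hZ _
    have hsc := scal hN hs0 hs1 hdp hd2 hR0 hSR hS0 hρ1 hρ2 hWl hWu hY
    have hc : 0 < (2 : ℝ) ^ (1 / (2 * (s + 2))) - 1 := (consts hN hs0 hs1).1
    have hKf := Kf_eq ha hb hS0 hs0 hd0 hd1 ha2' hb2'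
    have hhm := hm_eq ha hb hS0 hs0 hd0 hd1 ha2' hb2'
    have hab := ab_eq ha hb hS0 ha2' hb2'
    have hLg : Lg (1 / (2 * (s + 2))) a b = 4 * (√(S / 2) * √(1 - d ^ 2) /
        ZZ s d ^ (1 / (2 * (s + 2)))) * ((2 : ℝ) ^ (1 / (2 * (s + 2))) - 1) := by
      unfold Lg
      rw [one_div_one_div, hhm, hab]
      congr 2
      field_simp
    rw [ht]
    rw [hθs] at ht0 ⊢
    rw [one_div_one_div, hfirst, hKf, hLg]
    obtain ⟨W, hW⟩ : ∃ W : ℝ, W = ZZ s d ^ (1 / (2 * (s + 2))) := ⟨_, rfl⟩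
    obtain ⟨Y, hYe⟩ : ∃ Y : ℝ, Y = (1 - d ^ 2) ^ (s + 1) /
      ZZ s d ^ (2 - 3 * (1 / (2 * (s + 2)))) := ⟨_, rfl⟩
    obtain ⟨t, hte⟩ : ∃ t : ℝ, t = (2 : ℝ) ^ (1 / (2 * (s + 2))) := ⟨_, rfl⟩
    obtain ⟨v, hve⟩ : ∃ v : ℝ, v = vv (1 / (2 * (s + 2))) := ⟨_, rfl⟩
    have hsc' : √S < S * W + (1 + v) / (8 * (t - 1) * t) * Y * R *
        (1 - 3 / 128 * (1 + v) / (t - 1) ^ 2 * (R / S) * W ^ 2 / (1 - d ^ 2)) := by
      rw [hW, hYe, hte, hve]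
      exact hsc
    rw [← hte] at ht0 hc ⊢
    rw [← hW] at hW0 ⊢
    rw [← hYe, ← hve]
    rw [second_term hu he hW0 hc hu2, he2]
    obtain ⟨T, hT⟩ : ∃ T : ℝ, T = 1 - 3 / 128 * (1 + v) / (t - 1) ^ 2 * (R / S) * W ^ 2 /
      (1 - d ^ 2) := ⟨_, rfl⟩
    rw [← hT] at hsc' ⊢
    obtain ⟨u, hue⟩ : ∃ u : ℝ, u = √(S / 2) := ⟨_, rfl⟩
    rw [← hsq2] at hsc'
    rw [← hue] at hu hu2 hsc' ⊢
    have h1 := mul_lt_mul_of_pos_left hsc' (show 0 < t / (2 * u) by positivity)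
    have e1 : t / (2 * u) * (√2 * u) = t / √2 := by
      rw [div_mul_eq_mul_div, div_eq_div_iff (by positivity) hs2.ne']
      linear_combination (t * u) * hs2'
    have hS2 : S = 2 * u ^ 2 := by rw [hu2]; ring
    have e2 : t / (2 * u) * (S * W + (1 + v) / (8 * (t - 1) * t) * Y * R * T) =
        t * (u * W) + Y * (1 + v) * R / (16 * u * (t - 1)) * T := by
      rw [hS2]
      have hc' : t - 1 ≠ 0 := hc.ne'
      field_simp
      ring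
    rw [e1, e2] at h1
    exact h1

end Pool.Agent.Helper77.Pq
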