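import Pool.Agent.Helper53.Pq.Goals
import Pool.Agent.Helper77.Pq.Cert

/-!
# MP_705522_gt: the scalar inequality (D)
-/

set_option autoImplicit false

namespace Pool.Agent.Helper77.Pq

open Pool.Agent.Helper53.Pq Pool.Agent.Helper28.NO

/-! ### Bernoulli -/

theorem rev_bern {x w : ℝ} (hx : -1 < x) (hw0 : 0 ≤ w) (hw1 : w ≤ 1) :
    (1 + x) / (1 + w * x) ≤ (1 + x) ^ (1 - w) := by
  have h1 : 0 < 1 + x := by linarith
  have h2 : (1 + x) ^ w ≤ 1 + w * x := rpow_one_add_le_one_add_mul_self hx.le hw0 hw1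
  rw [Real.rpow_sub h1, Real.rpow_one]
  exact div_le_div_of_nonneg_left h1.le (Real.rpow_pos_of_pos h1 w) h2

/-- Bounds for `Z`. -/
theorem Z_bounds {s d : ℝ} (hs0 : 0 ≤ s) (hs1 : s ≤ 1) (hd0 : 0 ≤ d) (hd1 : d < 1) :
    ((1 + d) ^ (s + 2) + (1 - d) ^ (s + 2)) / 2 ≤ 1 + (1 + 2 * s) * d ^ 2 ∧
    (1 + 3 * s * d ^ 2 - (1 - s) * d ^ 4) / (1 - (1 - s) ^ 2 * d ^ 2) ≤
      ((1 + d) ^ (s + 2) + (1 - d) ^ (s + 2)) / 2 := by
  have h1 : 0 < 1 + d := by linarith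
  have h2 : 0 < 1 - d := by linarith
  have e1 : (1 + d) ^ (s + 2) = (1 + d) ^ s * (1 + d) ^ 2 := by
    rw [Real.rpow_add h1, Real.rpow_two]
  have e2 : (1 - d) ^ (s + 2) = (1 - d) ^ s * (1 - d) ^ 2 := by
    rw [Real.rpow_add h2, Real.rpow_two]
  constructor
  · have h3 : (1 + d) ^ s ≤ 1 + s * d :=
      rpow_one_add_le_one_add_mul_self (by linarith) hs0 hs1
    have h4 : (1 + -d) ^ s ≤ 1 + s * -d :=
      rpow_one_add_le_one_add_mul_self (by linarith) hs0 hs1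
    rw [← sub_eq_add_neg] at h4
    rw [e1, e2]
    have h5 := mul_le_mul_of_nonneg_right h3 (sq_nonneg (1 + d))
    have h6 := mul_le_mul_of_nonneg_right h4 (sq_nonneg (1 - d))
    nlinarith
  · have hw0 : 0 ≤ 1 - s := by linarith
    have hw1 : 1 - s ≤ 1 := by linarith
    have h3 := rev_bern (x := d) (w := 1 - s) (by linarith) hw0 hw1
    have h4 := rev_bern (x := -d) (w := 1 - s) (by linarith) hw0 hw1
    rw [sub_sub_cancel] at h3 h4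
    rw [← sub_eq_add_neg] at h4
    have h5 := mul_le_mul_of_nonneg_right h3 (sq_nonneg (1 + d))
    have h6 := mul_le_mul_of_nonneg_right h4 (sq_nonneg (1 - d))
    rw [e1, e2]
    have h7 : 0 < 1 + (1 - s) * d := by positivity
    have h8 : 0 < 1 + (1 - s) * -d := by nlinarith
    have h9 : 1 - (1 - s) ^ 2 * d ^ 2 = (1 + (1 - s) * d) * (1 + (1 - s) * -d) := by ring
    have h10 : (1 + 3 * s * d ^ 2 - (1 - s) * d ^ 4) / (1 - (1 - s) ^ 2 * d ^ 2) =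
        ((1 + d) / (1 + (1 - s) * d) * (1 + d) ^ 2 +
          (1 - d) / (1 + (1 - s) * -d) * (1 - d) ^ 2) / 2 := by
      have h11 : (1 + d) / (1 + (1 - s) * d) * (1 + d) ^ 2 +
          (1 - d) / (1 + (1 - s) * -d) * (1 - d) ^ 2 =
          ((1 + d) ^ 3 * (1 + (1 - s) * -d) + (1 + (1 - s) * d) * (1 - d) ^ 3) /
            ((1 + (1 - s) * d) * (1 + (1 - s) * -d)) := by
        rw [← div_add_div _ _ h7.ne' h8.ne']
        ring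
      have h12 : 1 + 3 * s * d ^ 2 - (1 - s) * d ^ 4 =
          ((1 + d) ^ 3 * (1 + (1 - s) * -d) + (1 + (1 - s) * d) * (1 - d) ^ 3) / 2 := by ring
      rw [h11, h9, h12, div_right_comm]
    rw [h10]
    linarith

/-- Lower bound for `W = Z^θ`. -/
theorem W_lower {s d Z : ℝ} (hs0 : 0 ≤ s) (hs1 : s ≤ 1) (hd0 : 0 ≤ d) (hd1 : d < 1)
    (hZ : (1 + 3 * s * d ^ 2 - (1 - s) * d ^ 4) / (1 - (1 - s) ^ 2 * d ^ 2) ≤ Z) :
    1 + d ^ 2 * (1 + s + s ^ 2 - (1 - s) * d ^ 2) /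
      (2 * (s + 2) + (2 * s + 3) * (1 + s + s ^ 2) * d ^ 2) ≤ Z ^ (1 / (2 * (s + 2))) := by
  have hD1 : d ^ 2 < 1 := by nlinarith
  have hD0 : 0 ≤ d ^ 2 := sq_nonneg d
  have hM : 0 < 1 - (1 - s) ^ 2 * d ^ 2 := by nlinarith [mul_nonneg hs0 (by linarith : 0 ≤ 2 - s)]
  have hN : 0 < 1 + s + s ^ 2 - (1 - s) * d ^ 2 := by nlinarith [mul_nonneg hs0 hD0]
  obtain ⟨x, hx⟩ : ∃ x : ℝ, x * (1 - (1 - s) ^ 2 * d ^ 2) =
      d ^ 2 * (1 + s + s ^ 2 - (1 - s) * d ^ 2) := ⟨_, div_mul_cancel₀ _ hM.ne'⟩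
  obtain ⟨A, hA⟩ : ∃ A : ℝ, A = d ^ 2 * (1 + s + s ^ 2 - (1 - s) * d ^ 2) /
      (2 * (s + 2) + (2 * s + 3) * (1 + s + s ^ 2) * d ^ 2) := ⟨_, rfl⟩
  have hdA : 0 < 2 * (s + 2) + (2 * s + 3) * (1 + s + s ^ 2) * d ^ 2 := by positivity
  rw [← hA]
  rw [eq_div_iff hdA.ne'] at hA
  have hx0 : 0 ≤ x := by
    by_contra hc
    push Not at hc
    have h1 : 0 ≤ d ^ 2 * (1 + s + s ^ 2 - (1 - s) * d ^ 2) := by positivity
    nlinarith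
  have hxe : (1 + 3 * s * d ^ 2 - (1 - s) * d ^ 4) / (1 - (1 - s) ^ 2 * d ^ 2) = 1 + x := by
    rw [div_eq_iff hM.ne']
    linear_combination -hx
  rw [hxe] at hZ
  obtain ⟨θ, hθ⟩ : ∃ θ : ℝ, θ = 1 / (2 * (s + 2)) := ⟨_, rfl⟩
  rw [← hθ]
  have hθe : θ * (2 * (s + 2)) = 1 := by
    rw [hθ]; exact one_div_mul_cancel (by positivity)
  have hθ0 : 0 < θ := by rw [hθ]; positivity
  have hθ1 : θ ≤ 1 := by
    rw [hθ, div_le_one (by positivity)]; linarith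
  have h1 : (1 + x) ^ θ ≤ Z ^ θ := Real.rpow_le_rpow (by linarith) hZ hθ0.le
  have h2 := rev_bern (x := x) (w := 1 - θ) (by linarith) (by linarith) (by linarith)
  rw [sub_sub_cancel] at h2
  refine le_trans (le_trans ?_ h2) h1
  have h5 : 0 < 1 + (1 - θ) * x := by
    have : 0 ≤ (1 - θ) * x := mul_nonneg (by linarith) hx0
    linarith
  rw [le_div_iff₀ h5]
  have h6 : A * (1 + (1 - θ) * x) ≤ θ * x := by
    refine le_of_mul_le_mul_right ?_ (mul_pos hdA hM)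
    have e1 : A * (1 + (1 - θ) * x) *
        ((2 * (s + 2) + (2 * s + 3) * (1 + s + s ^ 2) * d ^ 2) * (1 - (1 - s) ^ 2 * d ^ 2)) =
        d ^ 2 * (1 + s + s ^ 2 - (1 - s) * d ^ 2) * ((1 - (1 - s) ^ 2 * d ^ 2) +
          (1 - θ) * (d ^ 2 * (1 + s + s ^ 2 - (1 - s) * d ^ 2))) := by
      linear_combination ((1 + (1 - θ) * x) * (1 - (1 - s) ^ 2 * d ^ 2)) * hA +
        (d ^ 2 * (1 + s + s ^ 2 - (1 - s) * d ^ 2) * (1 - θ)) * hx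
    have e2 : θ * x *
        ((2 * (s + 2) + (2 * s + 3) * (1 + s + s ^ 2) * d ^ 2) * (1 - (1 - s) ^ 2 * d ^ 2)) =
        d ^ 2 * (1 + s + s ^ 2 - (1 - s) * d ^ 2) *
          (1 + (1 - θ) * ((1 + s + s ^ 2) * d ^ 2)) := by
      linear_combination (θ * (2 * (s + 2) + (2 * s + 3) * (1 + s + s ^ 2) * d ^ 2)) * hx +
        (d ^ 2 * (1 + s + s ^ 2 - (1 - s) * d ^ 2) * (1 + (1 + s + s ^ 2) * d ^ 2)) * hθe
    rw [e1, e2]
    refine mul_le_mul_of_nonneg_left ?_ (by positivity)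
    have h7 : 0 ≤ (1 - θ) * (d ^ 2 * ((1 - s) * d ^ 2)) :=
      mul_nonneg (by linarith) (mul_nonneg hD0 (mul_nonneg (by linarith) hD0))
    have h8 : 0 ≤ (1 - s) ^ 2 * d ^ 2 := by positivity
    nlinarith
  nlinarith

/-- Lower bound for `Y`. -/
theorem Y_lower {s d Z : ℝ} (hs0 : 0 ≤ s) (hs1 : s ≤ 1) (hd0 : 0 ≤ d) (hd1 : d < 1)
    (hZ0 : 0 < Z) (hZ : Z ≤ 1 + (1 + 2 * s) * d ^ 2) :
    (1 - d ^ 2) ^ 2 / ((1 + 3 * s * d ^ 2) * (1 + (1 / 4 + 5 / 4 * s) * d ^ 2)) ≤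
      (1 - d ^ 2) ^ (s + 1) / Z ^ (2 - 3 * (1 / (2 * (s + 2)))) := by
  have hD1 : 0 < 1 - d ^ 2 := by nlinarith
  have hD0 : 0 ≤ d ^ 2 := sq_nonneg d
  obtain ⟨θ, hθ⟩ : ∃ θ : ℝ, θ = 1 / (2 * (s + 2)) := ⟨_, rfl⟩
  rw [← hθ]
  have hθe : θ * (2 * (s + 2)) = 1 := by
    rw [hθ]; exact one_div_mul_cancel (by positivity)
  have hθ0 : 1 / 6 ≤ θ := by
    rw [hθ]; exact one_div_le_one_div_of_le (by positivity) (by linarith)
  have hθ1 : θ ≤ 1 / 4 := by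
    rw [hθ]; exact one_div_le_one_div_of_le (by positivity) (by linarith)
  have h1 := rev_bern (x := -d ^ 2) (w := 1 - s) (by linarith) (by linarith) (by linarith)
  rw [sub_sub_cancel, ← sub_eq_add_neg] at h1
  have hM : 0 < 1 + (1 - s) * -d ^ 2 := by nlinarith
  have e1 : (1 - d ^ 2) ^ (s + 1) = (1 - d ^ 2) ^ s * (1 - d ^ 2) := by
    rw [Real.rpow_add hD1, Real.rpow_one]
  have h2 : Z ^ (2 - 3 * θ) ≤ (1 + (1 + 2 * s) * d ^ 2) * (1 + (1 / 4 + 5 / 4 * s) * d ^ 2) := by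
    have h3 : (2 - 3 * θ : ℝ) = 1 + (1 - 3 * θ) := by ring
    rw [h3, Real.rpow_add hZ0, Real.rpow_one]
    have h4 : Z ^ (1 - 3 * θ) ≤ (1 + (1 + 2 * s) * d ^ 2) ^ (1 - 3 * θ) :=
      Real.rpow_le_rpow hZ0.le hZ (by linarith)
    have h5 : (1 + (1 + 2 * s) * d ^ 2) ^ (1 - 3 * θ) ≤
        1 + (1 - 3 * θ) * ((1 + 2 * s) * d ^ 2) :=
      rpow_one_add_le_one_add_mul_self (by nlinarith [mul_nonneg hs0 hD0]) (by linarith)
        (by linarith)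
    have h6 : (1 - 3 * θ) * (1 + 2 * s) ≤ 1 / 4 + 5 / 4 * s := by
      have h7 : (1 / 4 + 5 / 4 * s - (1 - 3 * θ) * (1 + 2 * s)) * (2 * (s + 2)) =
          3 / 2 * s * (1 - s) := by
        linear_combination (3 * (1 + 2 * s)) * hθe
      have h8 : 0 ≤ 3 / 2 * s * (1 - s) := by
        have : 0 ≤ 1 - s := by linarith
        positivity
      by_contra hc
      push Not at hc
      have h9 : (1 / 4 + 5 / 4 * s - (1 - 3 * θ) * (1 + 2 * s)) * (2 * (s + 2)) < 0 :=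
        mul_neg_of_neg_of_pos (by linarith) (by positivity)
      linarith
    have h10 : (1 - 3 * θ) * ((1 + 2 * s) * d ^ 2) ≤ (1 / 4 + 5 / 4 * s) * d ^ 2 := by
      rw [← mul_assoc]
      exact mul_le_mul_of_nonneg_right h6 hD0
    refine mul_le_mul hZ (by linarith) (Real.rpow_nonneg hZ0.le _) (by positivity)
  have hZp : 0 < Z ^ (2 - 3 * θ) := Real.rpow_pos_of_pos hZ0 _
  rw [e1, le_div_iff₀ hZp]
  have h3 : (1 - d ^ 2) ^ 2 / ((1 + 3 * s * d ^ 2) * (1 + (1 / 4 + 5 / 4 * s) * d ^ 2)) *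
      Z ^ (2 - 3 * θ) ≤
      (1 - d ^ 2) ^ 2 / ((1 + 3 * s * d ^ 2) * (1 + (1 / 4 + 5 / 4 * s) * d ^ 2)) *
      ((1 + (1 + 2 * s) * d ^ 2) * (1 + (1 / 4 + 5 / 4 * s) * d ^ 2)) :=
    mul_le_mul_of_nonneg_left h2 (by positivity)
  refine h3.trans (le_trans ?_ (mul_le_mul_of_nonneg_right h1 hD1.le))
  have h4 : (1 - d ^ 2) ^ 2 / ((1 + 3 * s * d ^ 2) * (1 + (1 / 4 + 5 / 4 * s) * d ^ 2)) *
      ((1 + (1 + 2 * s) * d ^ 2) * (1 + (1 / 4 + 5 / 4 * s) * d ^ 2)) =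
      (1 - d ^ 2) ^ 2 * (1 + (1 + 2 * s) * d ^ 2) / (1 + 3 * s * d ^ 2) := by
    have h5 : (1 + (1 / 4 + 5 / 4 * s) * d ^ 2) ≠ 0 := by positivity
    have h6 : (1 + 3 * s * d ^ 2) ≠ 0 := by positivity
    field_simp
  rw [h4, div_mul_eq_mul_div, div_le_div_iff₀ (by positivity) hM]
  have h5 : (1 + (1 + 2 * s) * d ^ 2) * (1 + (1 - s) * -d ^ 2) ≤ 1 + 3 * s * d ^ 2 := by
    have : 0 ≤ (1 + 2 * s) * (1 - s) * (d ^ 2) ^ 2 := by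
      have : 0 ≤ 1 - s := by linarith
      positivity
    nlinarith
  have h6 := mul_le_mul_of_nonneg_left h5 (sq_nonneg (1 - d ^ 2))
  nlinarith

/-- Upper bound for `W ^ 2`. -/
theorem W_upper {s d Z : ℝ} (hs0 : 0 ≤ s) (hs1 : s ≤ 1)
    (hZ0 : 0 < Z) (hZ : Z ≤ 1 + (1 + 2 * s) * d ^ 2) :
    (Z ^ (1 / (2 * (s + 2)))) ^ 2 ≤ 1 + ((1 + s) / 2 + s * (1 - s) / 4) * d ^ 2 := by
  have hD0 : 0 ≤ d ^ 2 := sq_nonneg d
  obtain ⟨θ, hθ⟩ : ∃ θ : ℝ, θ = 1 / (2 * (s + 2)) := ⟨_, rfl⟩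
  rw [← hθ]
  have hθe : θ * (2 * (s + 2)) = 1 := by
    rw [hθ]; exact one_div_mul_cancel (by positivity)
  have hθ0 : 1 / 6 ≤ θ := by
    rw [hθ]; exact one_div_le_one_div_of_le (by positivity) (by linarith)
  have hθ1 : θ ≤ 1 / 4 := by
    rw [hθ]; exact one_div_le_one_div_of_le (by positivity) (by linarith)
  have e1 : (Z ^ θ) ^ 2 = Z ^ (2 * θ) := by
    rw [mul_comm, Real.rpow_mul hZ0.le, Real.rpow_two]
  have h4 : Z ^ (2 * θ) ≤ (1 + (1 + 2 * s) * d ^ 2) ^ (2 * θ) :=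
    Real.rpow_le_rpow hZ0.le hZ (by linarith)
  have h5 : (1 + (1 + 2 * s) * d ^ 2) ^ (2 * θ) ≤ 1 + 2 * θ * ((1 + 2 * s) * d ^ 2) :=
    rpow_one_add_le_one_add_mul_self (by nlinarith [mul_nonneg hs0 hD0]) (by linarith)
      (by linarith)
  have h6 : 2 * θ * (1 + 2 * s) ≤ (1 + s) / 2 + s * (1 - s) / 4 := by
    have h7 : ((1 + s) / 2 + s * (1 - s) / 4 - 2 * θ * (1 + 2 * s)) * (2 * (s + 2)) =
        s ^ 2 * (1 - s) / 2 := by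
      linear_combination (-2 * (1 + 2 * s)) * hθe
    have h8 : 0 ≤ s ^ 2 * (1 - s) / 2 := by
      have : 0 ≤ 1 - s := by linarith
      positivity
    by_contra hc
    push Not at hc
    have h9 : ((1 + s) / 2 + s * (1 - s) / 4 - 2 * θ * (1 + 2 * s)) * (2 * (s + 2)) < 0 :=
      mul_neg_of_neg_of_pos (by linarith) (by positivity)
    linarith
  have h10 : 2 * θ * ((1 + 2 * s) * d ^ 2) ≤ ((1 + s) / 2 + s * (1 - s) / 4) * d ^ 2 := by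
    rw [← mul_assoc]
    exact mul_le_mul_of_nonneg_right h6 hD0
  rw [e1]
  linarith

/-- The polynomial inequality. -/
theorem core {s d ρ : ℝ} (hs0 : 0 ≤ s) (hs1 : s ≤ 1) (hd0 : 0 < d) (hd1 : d ≤ 29 / 50)
    (hρ0 : 0 < ρ) (hρ1 : ρ ≤ d) (hρ2 : ρ ≤ 7 / 26 * (1 - d)) :
    0 < d ^ 2 * (1 + s + s ^ 2 - (1 - s) * d ^ 2) /
        (2 * (s + 2) + (2 * s + 3) * (1 + s + s ^ 2) * d ^ 2) +
      ρ * ((77 / 125 + 651 / 2000 * s + 19 / 2000 * s ^ 2) * (1 - d ^ 2) *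
        ((1 - d ^ 2) - (1457 / 2000 + 89 / 125 * s + 99 / 500 * s ^ 2) * ρ *
          (1 + ((1 + s) / 2 + s * (1 - s) / 4) * d ^ 2)) /
        ((1 + 3 * s * d ^ 2) * (1 + (1 / 4 + 5 / 4 * s) * d ^ 2)) - 1 / 2) + ρ ^ 2 / 10 := by
  have hw : 0 ≤ 1 - s := by linarith
  have hD : d ^ 2 ≤ 841 / 2500 := by nlinarith
  have hD0 : 0 < d ^ 2 := by positivity
  have hD1 : 0 < 1 - d ^ 2 := by linarith
  obtain ⟨A, hA⟩ : ∃ A : ℝ, A = d ^ 2 * (1 + s + s ^ 2 - (1 - s) * d ^ 2) /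
      (2 * (s + 2) + (2 * s + 3) * (1 + s + s ^ 2) * d ^ 2) := ⟨_, rfl⟩
  obtain ⟨Q, hQ⟩ : ∃ Q : ℝ, Q = (1 + 3 * s * d ^ 2) * (1 + (1 / 4 + 5 / 4 * s) * d ^ 2) :=
    ⟨_, rfl⟩
  obtain ⟨K, hK⟩ : ∃ K : ℝ, K = 77 / 125 + 651 / 2000 * s + 19 / 2000 * s ^ 2 := ⟨_, rfl⟩
  obtain ⟨B, hB⟩ : ∃ B : ℝ, B = (1457 / 2000 + 89 / 125 * s + 99 / 500 * s ^ 2) *
          (1 + ((1 + s) / 2 + s * (1 - s) / 4) * d ^ 2) := ⟨_, rfl⟩
  obtain ⟨E, hE⟩ : ∃ E : ℝ, E = 2 * (s + 2) + (2 * s + 3) * (1 + s + s ^ 2) * d ^ 2 := ⟨_, rfl⟩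
  have hQ0 : 0 < Q := by rw [hQ]; positivity
  have hE0 : 0 < E := by rw [hE]; positivity
  have hK0 : 0 < K := by rw [hK]; positivity
  have hB0 : 0 < B := by rw [hB]; positivity
  have hAE : A * E = d ^ 2 * (1 + s + s ^ 2 - (1 - s) * d ^ 2) := by
    rw [hA, ← hE, div_mul_cancel₀ _ hE0.ne']
  -- the function of `ρ`
  have key : ∀ r : ℝ, 0 < r → ρ ≤ r → r ≤ d →
      0 < A + r * (K * (1 - d ^ 2) * ((1 - d ^ 2) - B * r) / Q - 1 / 2) + r ^ 2 / 10 →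
      0 < A + ρ * (K * (1 - d ^ 2) * ((1 - d ^ 2) - B * ρ) / Q - 1 / 2) + ρ ^ 2 / 10 := by
    intro r hr0 hρr hrd h
    have hA10 : r ^ 2 / 10 ≤ A := by
      have h1 : r ^ 2 ≤ d ^ 2 := by nlinarith
      have h2 : d ^ 2 / 10 ≤ A := by
        by_contra hc
        push Not at hc
        have h3 : A * E < d ^ 2 / 10 * E := mul_lt_mul_of_pos_right hc hE0
        rw [hAE, hE] at h3
        have h4 : d ^ 2 * (1 + s + s ^ 2 - (1 - s) * d ^ 2) < d ^ 2 * (1 / 10 *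
          (2 * (s + 2) + (2 * s + 3) * (1 + s + s ^ 2) * d ^ 2)) := by linarith
        have h5 := lt_of_mul_lt_mul_left h4 hD0.le
        have h6 : (2 * s + 3) * (1 + s + s ^ 2) * d ^ 2 ≤
            (2 * s + 3) * (1 + s + s ^ 2) * (841 / 2500) :=
          mul_le_mul_of_nonneg_left hD (by positivity)
        have h7 : (1 - s) * d ^ 2 ≤ (1 - s) * (841 / 2500) := mul_le_mul_of_nonneg_left hD hw
        have h8 : s ^ 3 ≤ 1 := pow_le_one₀ hs0 hs1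
        nlinarith [mul_nonneg hs0 hw, mul_nonneg (mul_nonneg hs0 hs0) hw]
      linarith
    have hc1 : 0 ≤ K * (1 - d ^ 2) * B / Q := by positivity
    have e1 : ∀ x : ℝ, A + x * (K * (1 - d ^ 2) * ((1 - d ^ 2) - B * x) / Q - 1 / 2) +
        x ^ 2 / 10 = A + x * (K * (1 - d ^ 2) ^ 2 / Q - 1 / 2) -
          x ^ 2 * (K * (1 - d ^ 2) * B / Q - 1 / 10) := by
      intro x
      ring
    rw [e1] at h ⊢
    have h1 : r * (A + ρ * (K * (1 - d ^ 2) ^ 2 / Q - 1 / 2) -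
          ρ ^ 2 * (K * (1 - d ^ 2) * B / Q - 1 / 10)) -
        ρ * (A + r * (K * (1 - d ^ 2) ^ 2 / Q - 1 / 2) -
          r ^ 2 * (K * (1 - d ^ 2) * B / Q - 1 / 10)) =
        (r - ρ) * (A + r * ρ * (K * (1 - d ^ 2) * B / Q - 1 / 10)) := by ring
    have h2 : 0 ≤ (r - ρ) * (A + r * ρ * (K * (1 - d ^ 2) * B / Q - 1 / 10)) := by
      refine mul_nonneg (by linarith) ?_
      have h3 : 0 ≤ r * ρ * (K * (1 - d ^ 2) * B / Q) := by positivity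
      have h4 : r * ρ ≤ r ^ 2 := by nlinarith
      nlinarith
    have h3 := mul_pos hρ0 h
    by_contra hc
    push Not at hc
    have h4 := mul_nonpos_of_nonneg_of_nonpos hr0.le hc
    linarith
  have hfin : (77 / 125 + 651 / 2000 * s + 19 / 2000 * s ^ 2) * (1 - d ^ 2) *
        ((1 - d ^ 2) - (1457 / 2000 + 89 / 125 * s + 99 / 500 * s ^ 2) * ρ *
          (1 + ((1 + s) / 2 + s * (1 - s) / 4) * d ^ 2)) /
        ((1 + 3 * s * d ^ 2) * (1 + (1 / 4 + 5 / 4 * s) * d ^ 2)) =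
      K * (1 - d ^ 2) * ((1 - d ^ 2) - B * ρ) / Q := by
    rw [hK, hB, hQ]; ring
  rw [hfin, ← hA]
  rcases le_total d (7 / 33) with hd | hd
  · refine key d hd0 hρ1 le_rfl ?_
    have hP := P1_pos s d hs0 hs1 hd0.le hd
    have h1 : (A + d * (K * (1 - d ^ 2) * ((1 - d ^ 2) - B * d) / Q - 1 / 2) + d ^ 2 / 10) *
        (E * Q) = d * (d * (1 + s + s ^ 2 - (1 - s) * d ^ 2) * Q + E * ((d / 10 - 1 / 2) * Q +
          K * (1 - d ^ 2) * ((1 - d ^ 2) - B * d))) := by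
      have h2 : K * (1 - d ^ 2) * ((1 - d ^ 2) - B * d) / Q * Q =
        K * (1 - d ^ 2) * ((1 - d ^ 2) - B * d) := div_mul_cancel₀ _ hQ0.ne'
      linear_combination Q * hAE + (d * E) * h2
    have h2 : 0 < d * (1 + s + s ^ 2 - (1 - s) * d ^ 2) * Q + E * ((d / 10 - 1 / 2) * Q +
          K * (1 - d ^ 2) * ((1 - d ^ 2) - B * d)) := by
      rw [hK, hB, hQ, hE]
      convert hP using 1
      ring
    have h3 := mul_pos hd0 h2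
    rw [← h1] at h3
    exact (mul_pos_iff_of_pos_right (mul_pos hE0 hQ0)).mp h3
  · have hr0 : 0 < 7 / 26 * (1 - d) := by linarith
    refine key (7 / 26 * (1 - d)) hr0 hρ2 (by linarith) ?_
    have hP := P2_pos s d hs0 hs1 hd hd1
    have h1 : (A + 7 / 26 * (1 - d) * (K * (1 - d ^ 2) *
        ((1 - d ^ 2) - B * (7 / 26 * (1 - d))) / Q - 1 / 2) + (7 / 26 * (1 - d)) ^ 2 / 10) *
        ((1 - d) * E * Q) = 7 / 26 * (1 - d) *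
        (26 / 7 * d ^ 2 * (1 + s + s ^ 2 - (1 - s) * d ^ 2) * Q +
          (1 - d) * E * ((7 / 26 * (1 - d) / 10 - 1 / 2) * Q +
          K * (1 - d ^ 2) * ((1 - d ^ 2) - B * (7 / 26 * (1 - d))))) := by
      have h2 : K * (1 - d ^ 2) * ((1 - d ^ 2) - B * (7 / 26 * (1 - d))) / Q * Q =
        K * (1 - d ^ 2) * ((1 - d ^ 2) - B * (7 / 26 * (1 - d))) := div_mul_cancel₀ _ hQ0.ne'
      linear_combination ((1 - d) * Q) * hAE + (7 / 26 * (1 - d) * (1 - d) * E) * h2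
    have h2 : 0 < 26 / 7 * d ^ 2 * (1 + s + s ^ 2 - (1 - s) * d ^ 2) * Q +
          (1 - d) * E * ((7 / 26 * (1 - d) / 10 - 1 / 2) * Q +
          K * (1 - d ^ 2) * ((1 - d ^ 2) - B * (7 / 26 * (1 - d)))) := by
      rw [hK, hB, hQ, hE]
      convert hP using 1
      ring
    have h3 := mul_pos hr0 h2
    rw [← h1] at h3
    exact (mul_pos_iff_of_pos_right (mul_pos (mul_pos (by linarith) hE0) hQ0)).mp h3

/-- Bounds for the constants. -/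
theorem consts (hN : GNum) {s : ℝ} (hs0 : 0 ≤ s) (hs1 : s ≤ 1) :
    0 < (2 : ℝ) ^ (1 / (2 * (s + 2))) - 1 ∧ 0 ≤ vv (1 / (2 * (s + 2))) ∧
    (77 / 125 + 651 / 2000 * s + 19 / 2000 * s ^ 2) ≤ (1 + vv (1 / (2 * (s + 2)))) /
      (8 * ((2 : ℝ) ^ (1 / (2 * (s + 2))) - 1) * (2 : ℝ) ^ (1 / (2 * (s + 2)))) ∧
    3 / 128 * (1 + vv (1 / (2 * (s + 2)))) / ((2 : ℝ) ^ (1 / (2 * (s + 2))) - 1) ^ 2 ≤
      1457 / 2000 + 89 / 125 * s + 99 / 500 * s ^ 2 := by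
  obtain ⟨θ, hθ⟩ : ∃ θ : ℝ, θ = 1 / (2 * (s + 2)) := ⟨_, rfl⟩
  rw [← hθ]
  have hθe : θ * (2 * (s + 2)) = 1 := by
    rw [hθ]; exact one_div_mul_cancel (by positivity)
  have hθ0 : 1 / 6 ≤ θ := by
    rw [hθ]; exact one_div_le_one_div_of_le (by positivity) (by linarith)
  have hθ1 : θ ≤ 1 / 4 := by
    rw [hθ]; exact one_div_le_one_div_of_le (by positivity) (by linarith)
  have hθp : 0 < θ := by linarith
  obtain ⟨hv1, hv2, ht1, ht2, -, -⟩ := hN.1 θ hθ0 hθ1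
  obtain ⟨t, ht⟩ : ∃ t : ℝ, t = (2 : ℝ) ^ θ := ⟨_, rfl⟩
  obtain ⟨v, hv⟩ : ∃ v : ℝ, v = vv θ := ⟨_, rfl⟩
  rw [← ht] at ht1 ht2 ⊢
  rw [← hv] at hv1 hv2 ⊢
  have hc : 0 < t - 1 := by nlinarith
  have hv0 : 0 ≤ v := by nlinarith
  have hsθ : s * θ = 1 / 2 - 2 * θ := by linear_combination hθe / 2
  have hθ2 : 0 < θ ^ 2 := by positivity
  refine ⟨hc, hv0, ?_, ?_⟩
  · have ht0 : 0 < t := by linarith
    rw [le_div_iff₀ (mul_pos (mul_pos (by norm_num) hc) ht0)]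
    refine le_of_mul_le_mul_right ?_ hθ2
    have h1 := kap_cert θ hθ0 hθ1
    have e1 : (77 / 125 + 651 / 2000 * s + 19 / 2000 * s ^ 2) * (8 * (t - 1) * t) * θ ^ 2 =
        8 * (77 / 125 * θ ^ 2 + 651 / 2000 * (θ * (1 / 2 - 2 * θ)) +
          19 / 2000 * (1 / 2 - 2 * θ) ^ 2) * (t ^ 2 - t) := by
      rw [← hsθ]; ring
    rw [e1]
    have h2 : t ^ 2 - t ≤ (1.00055 + 0.6853 * θ + 0.2776 * θ ^ 2) ^ 2 -
        (1.00055 + 0.6853 * θ + 0.2776 * θ ^ 2) := by nlinarith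
    have h3 : 0 ≤ 8 * (77 / 125 * θ ^ 2 + 651 / 2000 * (θ * (1 / 2 - 2 * θ)) +
          19 / 2000 * (1 / 2 - 2 * θ) ^ 2) := by
      have : 0 ≤ 1 / 2 - 2 * θ := by linarith
      positivity
    have h4 := mul_le_mul_of_nonneg_left h2 h3
    have h5 : (1 + (0.01207 - 0.1566 * θ + 2.2033 * θ ^ 2)) * θ ^ 2 ≤ (1 + v) * θ ^ 2 :=
      mul_le_mul_of_nonneg_right (by linarith) hθ2.le
    linarith
  · rw [div_le_iff₀ (by positivity)]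
    refine le_of_mul_le_mul_right ?_ hθ2
    have h1 := B_cert θ hθ0 hθ1
    have e1 : (1457 / 2000 + 89 / 125 * s + 99 / 500 * s ^ 2) * (t - 1) ^ 2 * θ ^ 2 =
        (1457 / 2000 * θ ^ 2 + 89 / 125 * (θ * (1 / 2 - 2 * θ)) +
          99 / 500 * (1 / 2 - 2 * θ) ^ 2) * (t - 1) ^ 2 := by
      rw [← hsθ]; ring
    rw [e1]
    have h2 : (1.00052 + 0.6853 * θ + 0.2776 * θ ^ 2 - 1) ^ 2 ≤ (t - 1) ^ 2 := by
      have : 0 ≤ 1.00052 + 0.6853 * θ + 0.2776 * θ ^ 2 - 1 := by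
        linarith
      exact pow_le_pow_left₀ this (by linarith) 2
    have h3 : 0 ≤ (1457 / 2000 * θ ^ 2 + 89 / 125 * (θ * (1 / 2 - 2 * θ)) +
          99 / 500 * (1 / 2 - 2 * θ) ^ 2) := by
      have : 0 ≤ 1 / 2 - 2 * θ := by linarith
      positivity
    have h4 := mul_le_mul_of_nonneg_left h2 h3
    have h5 : 3 / 128 * (1 + v) * θ ^ 2 ≤
        3 / 128 * (1 + (0.01218 - 0.1566 * θ + 2.2033 * θ ^ 2)) * θ ^ 2 :=
      mul_le_mul_of_nonneg_right (by linarith) hθ2.le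
    linarith

/-- The inequality in the new variables. -/
theorem scal (hN : GNum) {s d S R Y W : ℝ} (hs0 : 0 ≤ s) (hs1 : s ≤ 1) (hd0 : 0 < d)
    (hd1 : d ≤ 29 / 50) (hR : 0 < R) (hS : S = 1 - R) (hS0 : 0 < S)
    (hρ1 : R ≤ d * S) (hρ2 : R ≤ 7 / 26 * (1 - d) * S)
    (hW1 : 1 + d ^ 2 * (1 + s + s ^ 2 - (1 - s) * d ^ 2) /
      (2 * (s + 2) + (2 * s + 3) * (1 + s + s ^ 2) * d ^ 2) ≤ W)
    (hW2 : W ^ 2 ≤ 1 + ((1 + s) / 2 + s * (1 - s) / 4) * d ^ 2)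
    (hY : (1 - d ^ 2) ^ 2 / ((1 + 3 * s * d ^ 2) * (1 + (1 / 4 + 5 / 4 * s) * d ^ 2)) ≤ Y) :
    √S < S * W + (1 + vv (1 / (2 * (s + 2)))) /
      (8 * ((2 : ℝ) ^ (1 / (2 * (s + 2))) - 1) * (2 : ℝ) ^ (1 / (2 * (s + 2)))) * Y * R *
      (1 - 3 / 128 * (1 + vv (1 / (2 * (s + 2)))) / ((2 : ℝ) ^ (1 / (2 * (s + 2))) - 1) ^ 2 *
        (R / S) * W ^ 2 / (1 - d ^ 2)) := by
  have hw : 0 ≤ 1 - s := by linarith
  have hD : d ^ 2 ≤ 841 / 2500 := by nlinarith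
  have hD0 : 0 < d ^ 2 := by positivity
  have hD1 : 0 < 1 - d ^ 2 := by linarith
  obtain ⟨hc, hv, hκ, hB⟩ := consts hN hs0 hs1
  obtain ⟨κ, hκe⟩ : ∃ κ : ℝ, κ = (1 + vv (1 / (2 * (s + 2)))) /
      (8 * ((2 : ℝ) ^ (1 / (2 * (s + 2))) - 1) * (2 : ℝ) ^ (1 / (2 * (s + 2)))) := ⟨_, rfl⟩
  obtain ⟨β, hβe⟩ : ∃ β : ℝ, β = 3 / 128 * (1 + vv (1 / (2 * (s + 2)))) /
      ((2 : ℝ) ^ (1 / (2 * (s + 2))) - 1) ^ 2 := ⟨_, rfl⟩
  rw [← hκe] at hκ ⊢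
  rw [← hβe] at hB ⊢
  have hβ0 : 0 ≤ β := by rw [hβe]; positivity
  obtain ⟨ρ, hρ⟩ : ∃ ρ : ℝ, ρ = R / S := ⟨_, rfl⟩
  have hρS : ρ * S = R := by rw [hρ]; exact div_mul_cancel₀ _ hS0.ne'
  have hρ0 : 0 < ρ := by rw [hρ]; positivity
  have hρd : ρ ≤ d := by rw [hρ, div_le_iff₀ hS0]; exact hρ1
  have hρd2 : ρ ≤ 7 / 26 * (1 - d) := by rw [hρ, div_le_iff₀ hS0]; exact hρ2
  have hcore := core hs0 hs1 hd0 hd1 hρ0 hρd hρd2
  rw [← hρ]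
  obtain ⟨A, hA⟩ : ∃ A : ℝ, A = d ^ 2 * (1 + s + s ^ 2 - (1 - s) * d ^ 2) /
      (2 * (s + 2) + (2 * s + 3) * (1 + s + s ^ 2) * d ^ 2) := ⟨_, rfl⟩
  obtain ⟨Q, hQ⟩ : ∃ Q : ℝ, Q = (1 + 3 * s * d ^ 2) * (1 + (1 / 4 + 5 / 4 * s) * d ^ 2) :=
    ⟨_, rfl⟩
  obtain ⟨K, hK⟩ : ∃ K : ℝ, K = 77 / 125 + 651 / 2000 * s + 19 / 2000 * s ^ 2 := ⟨_, rfl⟩
  obtain ⟨B, hBe⟩ : ∃ B : ℝ, B = 1457 / 2000 + 89 / 125 * s + 99 / 500 * s ^ 2 := ⟨_, rfl⟩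
  obtain ⟨η, hη⟩ : ∃ η : ℝ, η = 1 + ((1 + s) / 2 + s * (1 - s) / 4) * d ^ 2 := ⟨_, rfl⟩
  rw [← hA] at hW1 hcore
  rw [← hQ] at hY hcore
  rw [← hK] at hκ hcore
  rw [← hBe] at hB hcore
  rw [← hη] at hW2 hcore
  have hQ0 : 0 < Q := by rw [hQ]; positivity
  have hK0 : 0 < K := by rw [hK]; positivity
  have hB0 : 0 < B := by rw [hBe]; positivity
  have hη1 : 1 ≤ η := by
    rw [hη]
    have : 0 ≤ ((1 + s) / 2 + s * (1 - s) / 4) * d ^ 2 := by positivity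
    linarith
  have hY0 : 0 < (1 - d ^ 2) ^ 2 / Q := by positivity
  -- the factor `T`
  have hBη : B * ρ * η ≤ 1 - d ^ 2 := by
    have h1 : B ≤ 1.6385 := by
      rw [hBe]; nlinarith
    have h2 : η ≤ 1 + d ^ 2 := by
      rw [hη]
      have : ((1 + s) / 2 + s * (1 - s) / 4) ≤ 1 := by nlinarith
      nlinarith
    have h3 : B * ρ * η ≤ 1.6385 * (7 / 26 * (1 - d)) * (1 + d ^ 2) := by
      have h4 : B * ρ ≤ 1.6385 * (7 / 26 * (1 - d)) :=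
        mul_le_mul h1 hρd2 hρ0.le (by norm_num)
      exact mul_le_mul h4 h2 (by linarith) (by
        have : 0 ≤ 1 - d := by linarith
        positivity)
    have h5 : 1.6385 * (7 / 26 * (1 - d)) * (1 + d ^ 2) ≤ (1 - d) * (1 + d) := by
      have h6 : 0 ≤ 1 - d := by linarith
      have h7 : 1.6385 * (7 / 26) * (1 + d ^ 2) ≤ 1 + d := by linarith
      have h8 := mul_le_mul_of_nonneg_left h7 h6
      calc 1.6385 * (7 / 26 * (1 - d)) * (1 + d ^ 2) =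
          (1 - d) * (1.6385 * (7 / 26) * (1 + d ^ 2)) := by ring
        _ ≤ _ := h8
    have h9 : (1 - d) * (1 + d) = 1 - d ^ 2 := by ring
    linarith
  have hT : ((1 - d ^ 2) - B * ρ * η) / (1 - d ^ 2) ≤ 1 - β * ρ * W ^ 2 / (1 - d ^ 2) := by
    rw [sub_div, div_self hD1.ne']
    have h1 : β * ρ * W ^ 2 ≤ B * ρ * η := by
      have h2 : β * ρ ≤ B * ρ := mul_le_mul_of_nonneg_right hB hρ0.le
      exact mul_le_mul h2 hW2 (sq_nonneg W) (by positivity)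
    have h2 := div_le_div_of_nonneg_right h1 hD1.le
    linarith
  have hT0 : 0 ≤ ((1 - d ^ 2) - B * ρ * η) / (1 - d ^ 2) :=
    div_nonneg (by linarith) hD1.le
  have hκ0 : 0 < κ := lt_of_lt_of_le hK0 hκ
  have hκY : K * ((1 - d ^ 2) ^ 2 / Q) ≤ κ * Y := mul_le_mul hκ hY hY0.le hκ0.le
  have hprod : K * (1 - d ^ 2) * ((1 - d ^ 2) - B * ρ * η) / Q ≤
      κ * Y * (1 - β * ρ * W ^ 2 / (1 - d ^ 2)) := by
    have h1 := mul_le_mul hκY hT hT0 (le_trans (by positivity) hκY)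
    refine le_trans (le_of_eq ?_) h1
    obtain ⟨T0, hT0e⟩ : ∃ T0 : ℝ, T0 = ((1 - d ^ 2) - B * ρ * η) / (1 - d ^ 2) := ⟨_, rfl⟩
    have h2 : (1 - d ^ 2) - B * ρ * η = T0 * (1 - d ^ 2) := by
      rw [hT0e]; exact (div_mul_cancel₀ _ hD1.ne').symm
    rw [← hT0e, h2]
    ring
  obtain ⟨G, hG⟩ : ∃ G : ℝ, G = K * (1 - d ^ 2) * ((1 - d ^ 2) - B * ρ * η) / Q := ⟨_, rfl⟩
  rw [← hG] at hprod hcore
  -- the square root
  have hR1 : R ≤ 1 / 5 := by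
    have h1 : ρ ≤ 0.2122 := by
      rcases le_total d 0.2122 with h | h
      · linarith
      · linarith
    have h2 : R ≤ 0.2122 * S := by
      rw [← hρS]; exact mul_le_mul_of_nonneg_right h1 hS0.le
    rw [hS] at h2
    linarith
  have hg : √S ≤ 1 - R / 2 - R ^ 2 / 8 := by
    rw [hS]
    have h1 : 0 ≤ R ^ 3 / 8 + R ^ 4 / 64 := by positivity
    have h2 : (1 - R / 2 - R ^ 2 / 8) ^ 2 = 1 - R + (R ^ 3 / 8 + R ^ 4 / 64) := by ring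
    have h3 : R ^ 2 ≤ 1 / 5 * R := by
      rw [pow_two]; exact mul_le_mul_of_nonneg_right hR1 hR.le
    refine Real.sqrt_le_iff.mpr ⟨by linarith, by rw [h2]; linarith⟩
  have hρ4 : ρ ≤ 1 / 4 := by
    rw [hρ, div_le_iff₀ hS0]
    linarith
  have hlast : R ^ 2 / 8 ≥ S * (ρ ^ 2 / 10) := by
    have h1 : R ^ 2 = S * (ρ ^ 2 * S) := by rw [← hρS]; ring
    have h2 : S ≥ 4 / 5 := by linarith
    have h3 : ρ ^ 2 * S ≥ ρ ^ 2 * (4 / 5) := mul_le_mul_of_nonneg_left h2 (sq_nonneg ρ)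
    have h4 := mul_le_mul_of_nonneg_left h3 hS0.le
    rw [h1]
    linarith
  have h1 : S + S * A ≤ S * W := by
    have h0 := mul_le_mul_of_nonneg_left hW1 hS0.le
    linarith
  have h2 : R * G ≤ R * (κ * Y * (1 - β * ρ * W ^ 2 / (1 - d ^ 2))) :=
    mul_le_mul_of_nonneg_left hprod hR.le
  have h3 := mul_pos hS0 hcore
  have h4 : S * (A + ρ * (G - 1 / 2) + ρ ^ 2 / 10) =
      S * A + R * G - R / 2 + S * (ρ ^ 2 / 10) := by
    rw [← hρS]; ring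
  rw [h4] at h3
  have h5 : κ * Y * R * (1 - β * ρ * W ^ 2 / (1 - d ^ 2)) =
      R * (κ * Y * (1 - β * ρ * W ^ 2 / (1 - d ^ 2))) := by ring
  rw [h5]
  linarith

end Pool.Agent.Helper77.Pq
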